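import Mathlib

set_option autoImplicit false

/-!
Definitions for the problem of finding a maximum weight `k`-element subset of a common base of two
matroids given by independence oracles.
-/

namespace Pool.Agent.H586R2.KCB

/-- `X` is `k`-feasible for `M₁` and `M₂`: it has exactly `k` elements and is contained in a
common base of the two matroids. -/
def KFeasible {S : Type} (M₁ M₂ : Matroid S) (k : ℕ) (X : Finset S) : Prop :=
  X.card = k ∧ ∃ B : Finset S, M₁.IsBase B ∧ M₂.IsBase B ∧ X ⊆ B

/-- `X` is a `k`-feasible set of maximum weight. -/
def IsOptimal {S : Type} (M₁ M₂ : Matroid S) (w : S → ℚ) (k : ℕ) (X : Finset S) : Prop :=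
  KFeasible M₁ M₂ k X ∧ ∀ Y : Finset S, KFeasible M₁ M₂ k Y → ∑ e ∈ Y, w e ≤ ∑ e ∈ X, w e

/-- The valid inputs: both matroids have the whole of `Fin n` as ground set, the weights are
nonnegative rationals, there is a common base, and `k` is at most its size. -/
def ValidInstance {n : ℕ} (M₁ M₂ : Matroid (Fin n)) (w : Fin n → ℚ) (k : ℕ) : Prop :=
  M₁.E = Set.univ ∧ M₂.E = Set.univ ∧ (∀ e, 0 ≤ w e) ∧
    ∃ B : Finset (Fin n), M₁.IsBase B ∧ M₂.IsBase B ∧ k ≤ B.card

/-- A deterministic adaptive procedure with access to two independence oracles.  It either stops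
and returns a set, or it asks one of the two oracles (`false` for the first matroid, `true` for the
second) whether a set of its choice is independent, and goes on depending on the answer. What it
does between two questions is not restricted in any way. -/
inductive OracleTree (S : Type) : Type
  | output : Finset S → OracleTree S
  | ask : Bool → Finset S → (Bool → OracleTree S) → OracleTree S

/-- The answer of the independence oracle: oracle `false` is the one of `M₁`, oracle `true` the one
of `M₂`. -/
noncomputable def answer {S : Type} (M₁ M₂ : Matroid S) (b : Bool) (X : Finset S) : Bool := by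
  classical
  exact decide ((if b then M₂ else M₁).Indep (X : Set S))

/-- The set returned when the two oracles are those of `M₁` and `M₂`. -/
noncomputable def OracleTree.run {S : Type} (M₁ M₂ : Matroid S) : OracleTree S → Finset S
  | .output X => X
  | .ask b X next => OracleTree.run M₁ M₂ (next (answer M₁ M₂ b X))

/-- The number of oracle calls made when the two oracles are those of `M₁` and `M₂`. -/
noncomputable def OracleTree.calls {S : Type} (M₁ M₂ : Matroid S) : OracleTree S → ℕ
  | .output _ => 0
  | .ask b X next => OracleTree.calls M₁ M₂ (next (answer M₁ M₂ b X)) + 1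

/-- An algorithm: for every size `n` of the ground set, all weights and every `k`, an adaptive
procedure asking the two independence oracles. -/
abbrev OracleAlgorithm : Type := (n : ℕ) → (Fin n → ℚ) → ℕ → OracleTree (Fin n)

/-- The algorithm returns a maximum weight `k`-feasible set on every valid input. -/
def Solves (A : OracleAlgorithm) : Prop :=
  ∀ (n : ℕ) (M₁ M₂ : Matroid (Fin n)) (w : Fin n → ℚ) (k : ℕ),
    ValidInstance M₁ M₂ w k → IsOptimal M₁ M₂ w k ((A n w k).run M₁ M₂)

/-- The bit size of the weights. -/
def bitSize {n : ℕ} (w : Fin n → ℚ) : ℕ :=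
  ∑ e, ((w e).num.natAbs.size + (w e).den.size)

/-- On all valid inputs the number of oracle calls is bounded by a fixed polynomial in the size of
the ground set and the bit size of the weights. -/
def PolynomiallyManyCalls (A : OracleAlgorithm) : Prop :=
  ∃ c : ℕ, ∀ (n : ℕ) (M₁ M₂ : Matroid (Fin n)) (w : Fin n → ℚ) (k : ℕ),
    ValidInstance M₁ M₂ w k → (A n w k).calls M₁ M₂ ≤ c * (n + bitSize w + 1) ^ c

end Pool.Agent.H586R2.KCB
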