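import Mathlib
import Pool.Agent.H586R2.KCB.Defs

set_option autoImplicit false
set_option linter.unusedSectionVars false

namespace Pool.Agent.H586R2.KCB

open Finset

section Matroids

variable {S ι : Type} [DecidableEq S] [DecidableEq ι]

/-- independence in the direct sum of a partition matroid (classes given by `g`) and a sparse
paving matroid on the elements with `g x = none`. -/
def spIndep (g : S → Option ι) (N : ℕ) (F : Finset (Finset S)) (I : Finset S) : Prop :=
  (∀ x ∈ I, ∀ y ∈ I, g x = g y → g x ≠ none → x = y) ∧
    (I.filter (fun x => g x = none)).card ≤ N ∧ I.filter (fun x => g x = none) ∉ F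

theorem spIndep_subset (g : S → Option ι) (N : ℕ) (F : Finset (Finset S))
    (hF : ∀ X ∈ F, X.card = N) {I J : Finset S} (hJ : spIndep g N F J) (h : I ⊆ J) :
    spIndep g N F I := by
  obtain ⟨h1, h2, h3⟩ := hJ
  have hsub : I.filter (fun x => g x = none) ⊆ J.filter (fun x => g x = none) :=
    filter_subset_filter _ h
  refine ⟨fun x hx y hy => h1 x (h hx) y (h hy), (card_le_card hsub).trans h2, fun hmem => ?_⟩
  have hc := hF _ hmem
  have : I.filter (fun x => g x = none) = J.filter (fun x => g x = none) :=
    eq_of_subset_of_card_le hsub (by omega)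
  exact h3 (this ▸ hmem)

theorem spIndep_aug (g : S → Option ι) (N : ℕ) (F : Finset (Finset S))
    (hF : ∀ X ∈ F, X.card = N)
    (hF2 : ∀ X ∈ F, ∀ Y ∈ F, X ≠ Y → (X ∩ Y).card + 2 ≤ N)
    {I J : Finset S} (hI : spIndep g N F I) (hJ : spIndep g N F J) (hlt : I.card < J.card) :
    ∃ e ∈ J, e ∉ I ∧ spIndep g N F (insert e I) := by
  obtain ⟨hI1, hI2, hI3⟩ := hI
  obtain ⟨hJ1, hJ2, hJ3⟩ := hJ
  have hIc := card_filter_add_card_filter_not (s := I) (fun x => g x = none)
  have hJc := card_filter_add_card_filter_not (s := J) (fun x => g x = none)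
  by_cases hcase : (I.filter (fun x => g x = none)).card < (J.filter (fun x => g x = none)).card
  · -- the sparse paving part
    by_contra hcon
    push Not at hcon
    have key : ∀ y ∈ J, y ∉ I → g y = none → insert y (I.filter (fun x => g x = none)) ∈ F := by
      intro y hy hyI hg
      by_contra hnot
      apply hcon y hy hyI
      have hfil : (insert y I).filter (fun x => g x = none)
          = insert y (I.filter (fun x => g x = none)) := by
        rw [filter_insert, if_pos hg]
      refine ⟨?_, ?_, ?_⟩
      · intro a ha b hb hab hne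
        rcases mem_insert.1 ha with rfl | ha
        · exact absurd hg hne
        · rcases mem_insert.1 hb with rfl | hb
          · rw [hab] at hne; exact absurd hg hne
          · exact hI1 a ha b hb hab hne
      · rw [hfil]
        refine (card_insert_le _ _).trans ?_
        omega
      · rw [hfil]; exact hnot
    -- pick an element
    have hex : ∃ y ∈ J.filter (fun x => g x = none), y ∉ I.filter (fun x => g x = none) := by
      by_contra hno
      push Not at hno
      exact absurd (card_le_card (fun y hy => hno y hy)) (by omega)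
    obtain ⟨y, hy, hyI⟩ := hex
    rw [mem_filter] at hy
    have hyI' : y ∉ I := fun h => hyI (mem_filter.2 ⟨h, hy.2⟩)
    have hyF := key y hy.1 hyI' hy.2
    have hcard : (insert y (I.filter (fun x => g x = none))).card = N := hF _ hyF
    rw [card_insert_of_notMem hyI] at hcard
    by_cases huniq : ∀ z ∈ J.filter (fun x => g x = none), z ∉ I.filter (fun x => g x = none) → z = y
    · have hsub : J.filter (fun x => g x = none) ⊆ insert y (I.filter (fun x => g x = none)) := by
        intro z hz
        by_cases hzI : z ∈ I.filter (fun x => g x = none)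
        · exact mem_insert_of_mem hzI
        · rw [huniq z hz hzI]; exact mem_insert_self _ _
      have heq : J.filter (fun x => g x = none) = insert y (I.filter (fun x => g x = none)) := by
        apply eq_of_subset_of_card_le hsub
        rw [card_insert_of_notMem hyI]
        omega
      exact hJ3 (heq ▸ hyF)
    · push Not at huniq
      obtain ⟨z, hz, hzI, hzy⟩ := huniq
      rw [mem_filter] at hz
      have hzI' : z ∉ I := fun h => hzI (mem_filter.2 ⟨h, hz.2⟩)
      have hzF := key z hz.1 hzI' hz.2
      have hne : insert y (I.filter (fun x => g x = none)) ≠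
          insert z (I.filter (fun x => g x = none)) := by
        intro h
        have : y ∈ insert z (I.filter (fun x => g x = none)) := h ▸ mem_insert_self _ _
        rcases mem_insert.1 this with h' | h'
        · exact hzy h'.symm
        · exact hyI h'
      have h2 := hF2 _ hyF _ hzF hne
      have hsub : I.filter (fun x => g x = none) ⊆
          insert y (I.filter (fun x => g x = none)) ∩ insert z (I.filter (fun x => g x = none)) :=
        subset_inter (subset_insert _ _) (subset_insert _ _)
      have := card_le_card hsub
      omega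
  · -- the partition part
    have hlt2 : (I.filter (fun x => ¬ g x = none)).card < (J.filter (fun x => ¬ g x = none)).card := by
      omega
    have hinjI : Set.InjOn g (I.filter (fun x => ¬ g x = none) : Finset S) := by
      intro a ha b hb hab
      rw [mem_coe, mem_filter] at ha hb
      exact hI1 a ha.1 b hb.1 hab ha.2
    have hinjJ : Set.InjOn g (J.filter (fun x => ¬ g x = none) : Finset S) := by
      intro a ha b hb hab
      rw [mem_coe, mem_filter] at ha hb
      exact hJ1 a ha.1 b hb.1 hab ha.2
    have hc1 := card_image_of_injOn hinjI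
    have hc2 := card_image_of_injOn hinjJ
    have hex : ∃ c ∈ (J.filter (fun x => ¬ g x = none)).image g,
        c ∉ (I.filter (fun x => ¬ g x = none)).image g := by
      by_contra hno
      have hsub : (J.filter (fun x => ¬ g x = none)).image g ⊆
          (I.filter (fun x => ¬ g x = none)).image g := by
        intro c hc
        by_contra hcI
        exact hno ⟨c, hc, hcI⟩
      have := card_le_card hsub
      omega
    obtain ⟨c, hc, hcI⟩ := hex
    rw [mem_image] at hc
    obtain ⟨y, hy, rfl⟩ := hc
    rw [mem_filter] at hy
    have hyI : ∀ x ∈ I, g x ≠ g y := by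
      intro x hx hxy
      apply hcI
      rw [mem_image]
      exact ⟨x, mem_filter.2 ⟨hx, by rw [hxy]; exact hy.2⟩, hxy⟩
    have hyI' : y ∉ I := fun h => hyI y h rfl
    refine ⟨y, hy.1, hyI', ?_, ?_, ?_⟩
    · intro a ha b hb hab hne
      rcases mem_insert.1 ha with h1 | h1
      · rcases mem_insert.1 hb with h2 | h2
        · rw [h1, h2]
        · exact absurd (by rw [← hab, h1]) (hyI b h2)
      · rcases mem_insert.1 hb with h2 | h2
        · exact absurd (by rw [hab, h2]) (hyI a h1)
        · exact hI1 a h1 b h2 hab hne
    · rw [filter_insert, if_neg hy.2]; exact hI2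
    · rw [filter_insert, if_neg hy.2]; exact hI3

/-- The matroid with independent sets `spIndep`. -/
noncomputable def spMatroid (g : S → Option ι) (N : ℕ) (F : Finset (Finset S))
    (hN : ∅ ∉ F) (hF : ∀ X ∈ F, X.card = N)
    (hF2 : ∀ X ∈ F, ∀ Y ∈ F, X ≠ Y → (X ∩ Y).card + 2 ≤ N) : Matroid S :=
  (IndepMatroid.ofFinset Set.univ (spIndep g N F)
    ⟨by simp, by simp, by simpa using hN⟩
    (fun _ _ hJ h => spIndep_subset g N F hF hJ h)
    (fun _ _ hI hJ h => spIndep_aug g N F hF hF2 hI hJ h)
    (fun _ _ => Set.subset_univ _)).matroid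

theorem spMatroid_E (g : S → Option ι) (N : ℕ) (F : Finset (Finset S))
    (hN : ∅ ∉ F) (hF : ∀ X ∈ F, X.card = N)
    (hF2 : ∀ X ∈ F, ∀ Y ∈ F, X ≠ Y → (X ∩ Y).card + 2 ≤ N) :
    (spMatroid g N F hN hF hF2).E = Set.univ := rfl

theorem spMatroid_indep (g : S → Option ι) (N : ℕ) (F : Finset (Finset S))
    (hN : ∅ ∉ F) (hF : ∀ X ∈ F, X.card = N)
    (hF2 : ∀ X ∈ F, ∀ Y ∈ F, X ≠ Y → (X ∩ Y).card + 2 ≤ N) (I : Finset S) :
    (spMatroid g N F hN hF hF2).Indep (I : Set S) ↔ spIndep g N F I := by
  unfold spMatroid
  rw [IndepMatroid.matroid_indep_iff]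
  exact IndepMatroid.ofFinset_indep ..

/-- Bases of a matroid on a finite type are the independent finsets that cannot be extended. -/
theorem isBase_iff_finset (M : Matroid S) (B : Finset S) :
    M.IsBase (B : Set S) ↔ M.Indep (B : Set S) ∧ ∀ x, x ∉ B → ¬ M.Indep ((insert x B : Finset S) : Set S) := by
  constructor
  · intro h
    refine ⟨h.indep, fun x hx hi => ?_⟩
    have := h.eq_of_subset_indep hi (by simp)
    have hx' : x ∈ (B : Set S) := by rw [this]; simp
    exact hx (by simpa using hx')
  · rintro ⟨h1, h2⟩
    apply h1.isBase_of_maximal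
    intro J hJ hBJ
    apply Set.Subset.antisymm hBJ
    intro x hx
    by_contra hxB
    apply h2 x (by simpa using hxB)
    apply hJ.subset
    intro y hy
    rw [coe_insert] at hy
    rcases Set.mem_insert_iff.1 hy with rfl | hy
    · exact hx
    · exact hBJ hy

end Matroids

section Tree

variable {S : Type}

/-- The adversary argument: if every question distinguishes at most one of the hidden instances
from the reference instance, a procedure making fewer questions than there are hidden instances
returns the same set on one of them. -/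
theorem adversary {κ : Type} [DecidableEq κ] (M₁ M₂ : Matroid S) (N : κ → Matroid S)
    (T : OracleTree S) (K : Finset κ)
    (hK : ∀ X : Finset S, ∀ a ∈ K, ∀ b ∈ K,
      ¬ ((N a).Indep (X : Set S) ↔ M₂.Indep (X : Set S)) →
      ¬ ((N b).Indep (X : Set S) ↔ M₂.Indep (X : Set S)) → a = b)
    (hlt : T.calls M₁ M₂ < K.card) :
    ∃ a ∈ K, T.run M₁ (N a) = T.run M₁ M₂ := by
  classical
  induction T generalizing K with
  | output X =>
    have : 0 < K.card := lt_of_le_of_lt (Nat.zero_le _) hlt
    obtain ⟨a, ha⟩ := card_pos.1 this
    exact ⟨a, ha, rfl⟩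
  | ask b X next ih =>
    have hcalls : (OracleTree.ask b X next).calls M₁ M₂
        = (next (answer M₁ M₂ b X)).calls M₁ M₂ + 1 := rfl
    rw [hcalls] at hlt
    set K' := K.filter (fun a => answer M₁ (N a) b X = answer M₁ M₂ b X) with hK'
    have hone : (K.filter (fun a => ¬ answer M₁ (N a) b X = answer M₁ M₂ b X)).card ≤ 1 := by
      rw [card_le_one]
      intro a ha c hc
      rw [mem_filter] at ha hc
      have aux : ∀ d, ¬ answer M₁ (N d) b X = answer M₁ M₂ b X →
          ¬ ((N d).Indep (X : Set S) ↔ M₂.Indep (X : Set S)) := by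
        intro d hd hiff
        apply hd
        unfold answer
        cases b
        · simp
        · simp [hiff]
      exact hK X a ha.1 c hc.1 (aux a ha.2) (aux c hc.2)
    have hsplit := card_filter_add_card_filter_not (s := K)
      (fun a => answer M₁ (N a) b X = answer M₁ M₂ b X)
    obtain ⟨a, ha, hrun⟩ := ih (answer M₁ M₂ b X) K'
      (fun Y a ha c hc => hK Y a (mem_of_mem_filter _ ha) c (mem_of_mem_filter _ hc))
      (by rw [hK']; omega)
    refine ⟨a, mem_of_mem_filter _ ha, ?_⟩
    change (next (answer M₁ (N a) b X)).run M₁ (N a) = (next (answer M₁ M₂ b X)).run M₁ M₂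
    rw [(mem_filter.1 ha).2, hrun]

end Tree

end Pool.Agent.H586R2.KCB
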