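import Mathlib
import Pool.Agent.H586R2.KCB.Mat

set_option autoImplicit false
set_option linter.unusedSectionVars false

namespace Pool.Agent.H586R2.KCB

open Finset

variable {m : ℕ}

/-- the coding of the ground set: four elements for each of the `2 m` indices -/
def cod (m : ℕ) : Fin (8 * m) ≃ Fin (2 * m) × Fin 4 :=
  (finCongr (by ring)).trans (finProdFinEquiv (m := 2 * m) (n := 4)).symm

/-- index of an element -/
def ix (x : Fin (8 * m)) : Fin (2 * m) := (cod m x).1
/-- type of an element -/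
def ty (x : Fin (8 * m)) : Fin 4 := (cod m x).2
/-- the element of given index and type -/
def el (i : Fin (2 * m)) (t : Fin 4) : Fin (8 * m) := (cod m).symm (i, t)

@[simp] theorem ix_el (i : Fin (2 * m)) (t : Fin 4) : ix (el i t) = i := by simp [ix, el]
@[simp] theorem ty_el (i : Fin (2 * m)) (t : Fin 4) : ty (el i t) = t := by simp [ty, el]
@[simp] theorem el_ix_ty (x : Fin (8 * m)) : el (ix x) (ty x) = x := by simp [ix, ty, el]

theorem ext_ix_ty {x y : Fin (8 * m)} (h1 : ix x = ix y) (h2 : ty x = ty y) : x = y := by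
  rw [← el_ix_ty x, ← el_ix_ty y, h1, h2]

/-- classes of the first matroid -/
def g1 (x : Fin (8 * m)) : Option (Fin (2 * m) × Bool) :=
  some (ix x, decide (ty x = 0 ∨ ty x = 3))

/-- classes of the second matroid -/
def g2 (x : Fin (8 * m)) : Option (Fin (2 * m)) :=
  if ty x = 0 ∨ ty x = 1 then some (ix x) else none

/-- the circuit-hyperplanes -/
def hyp (I : Finset (Fin (2 * m))) : Finset (Fin (8 * m)) :=
  univ.filter (fun x => (ty x = 2 ∧ ix x ∈ I) ∨ (ty x = 3 ∧ ix x ∉ I))

theorem mem_hyp {I : Finset (Fin (2 * m))} {x : Fin (8 * m)} :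
    x ∈ hyp I ↔ (ty x = 2 ∧ ix x ∈ I) ∨ (ty x = 3 ∧ ix x ∉ I) := by
  simp [hyp]

theorem hyp_injective : Function.Injective (hyp (m := m)) := by
  intro I J h
  ext i
  have : el i 2 ∈ hyp I ↔ el i 2 ∈ hyp J := by rw [h]
  simpa [mem_hyp] using this

theorem ix_injOn_hyp (I : Finset (Fin (2 * m))) : Set.InjOn ix (hyp I : Set (Fin (8 * m))) := by
  intro x hx y hy hxy
  rw [mem_coe, mem_hyp] at hx hy
  apply ext_ix_ty hxy
  rcases hx with ⟨h1, h2⟩ | ⟨h1, h2⟩ <;> rcases hy with ⟨h3, h4⟩ | ⟨h3, h4⟩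
  · rw [h1, h3]
  · rw [hxy] at h2; exact absurd h2 h4
  · rw [hxy] at h2; exact absurd h4 h2
  · rw [h1, h3]

theorem card_hyp (I : Finset (Fin (2 * m))) : (hyp I).card = 2 * m := by
  rw [← card_image_of_injOn (ix_injOn_hyp I)]
  have : (hyp I).image ix = univ := by
    ext i
    simp only [mem_image, mem_univ, iff_true]
    by_cases hi : i ∈ I
    · exact ⟨el i 2, by simp [mem_hyp, hi], by simp⟩
    · exact ⟨el i 3, by simp [mem_hyp, hi], by simp⟩
  rw [this, card_univ, Fintype.card_fin]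

theorem card_hyp_inter {I J : Finset (Fin (2 * m))} (hIJ : I ≠ J) (hc : I.card = J.card) :
    (hyp I ∩ hyp J).card + 2 ≤ 2 * m := by
  have h1 : ∃ a ∈ I, a ∉ J := by
    by_contra h
    push Not at h
    exact hIJ (eq_of_subset_of_card_le (fun a ha => h a ha) hc.ge)
  have h2 : ∃ a ∈ J, a ∉ I := by
    by_contra h
    push Not at h
    exact hIJ (eq_of_subset_of_card_le (fun a ha => h a ha) hc.le).symm
  obtain ⟨a, haI, haJ⟩ := h1
  obtain ⟨b, hbJ, hbI⟩ := h2
  have hab : a ≠ b := by rintro rfl; exact haJ hbJ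
  have hinj : Set.InjOn ix ((hyp I ∩ hyp J : Finset _) : Set (Fin (8 * m))) :=
    (ix_injOn_hyp I).mono (by intro x hx; simp at hx; simpa using hx.1)
  rw [← card_image_of_injOn hinj]
  have hsub : (hyp I ∩ hyp J).image ix ⊆ univ \ {a, b} := by
    intro i hi
    rw [mem_image] at hi
    obtain ⟨x, hx, rfl⟩ := hi
    rw [mem_inter, mem_hyp, mem_hyp] at hx
    rw [mem_sdiff, mem_insert, mem_singleton]
    refine ⟨mem_univ _, ?_⟩
    rintro (h | h)
    · rw [h] at hx
      obtain ⟨h3, h4⟩ := hx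
      rcases h3 with ⟨h3, -⟩ | ⟨-, h3⟩
      · rcases h4 with ⟨-, h4⟩ | ⟨h4, -⟩
        · exact haJ h4
        · rw [h3] at h4; exact absurd h4 (by decide)
      · exact h3 haI
    · rw [h] at hx
      obtain ⟨h3, h4⟩ := hx
      rcases h4 with ⟨h4, -⟩ | ⟨-, h4⟩
      · rcases h3 with ⟨-, h3⟩ | ⟨h3, -⟩
        · exact hbI h3
        · rw [h3] at h4; exact absurd h4 (by decide)
      · exact h4 hbJ
  have := card_le_card hsub
  rw [card_sdiff_of_subset (subset_univ _), card_univ, Fintype.card_fin, card_pair hab] at this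
  have h2m : 2 ≤ 2 * m := by
    have := card_le_card (subset_univ ({a, b} : Finset (Fin (2 * m))))
    rwa [card_pair hab, card_univ, Fintype.card_fin] at this
  omega

/-- the family of circuit-hyperplanes given by a set of index sets -/
def fam (𝒥 : Finset (Finset (Fin (2 * m)))) : Finset (Finset (Fin (8 * m))) := 𝒥.image hyp

theorem mem_fam {𝒥 : Finset (Finset (Fin (2 * m)))} {I : Finset (Fin (2 * m))} :
    hyp I ∈ fam 𝒥 ↔ I ∈ 𝒥 := by
  unfold fam
  rw [mem_image]
  constructor
  · rintro ⟨J, hJ, h⟩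
    rwa [← hyp_injective h]
  · intro h; exact ⟨I, h, rfl⟩

/-- all index sets with exactly half of the indices -/
def mid (m : ℕ) : Finset (Finset (Fin (2 * m))) := powersetCard m univ

theorem mem_mid {I : Finset (Fin (2 * m))} : I ∈ mid m ↔ I.card = m := by
  simp [mid, mem_powersetCard]

theorem fam_ne (hm : 0 < m) (𝒥 : Finset (Finset (Fin (2 * m)))) : ∅ ∉ fam 𝒥 := by
  intro h
  unfold fam at h
  rw [mem_image] at h
  obtain ⟨J, -, h⟩ := h
  have := card_hyp J
  rw [h, card_empty] at this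
  omega

theorem fam_card (𝒥 : Finset (Finset (Fin (2 * m)))) : ∀ X ∈ fam 𝒥, X.card = 2 * m := by
  intro X hX
  unfold fam at hX
  rw [mem_image] at hX
  obtain ⟨J, -, rfl⟩ := hX
  exact card_hyp J

theorem fam_inter {𝒥 : Finset (Finset (Fin (2 * m)))} (h𝒥 : 𝒥 ⊆ mid m) :
    ∀ X ∈ fam 𝒥, ∀ Y ∈ fam 𝒥, X ≠ Y → (X ∩ Y).card + 2 ≤ 2 * m := by
  intro X hX Y hY hXY
  unfold fam at hX hY
  rw [mem_image] at hX hY
  obtain ⟨I, hI, rfl⟩ := hX
  obtain ⟨J, hJ, rfl⟩ := hY
  apply card_hyp_inter (fun h => hXY (by rw [h]))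
  rw [mem_mid.1 (h𝒥 hI), mem_mid.1 (h𝒥 hJ)]

/-- first matroid: a partition matroid -/
noncomputable def M1 (m : ℕ) : Matroid (Fin (8 * m)) :=
  spMatroid g1 1 ∅ (by simp) (by simp) (by simp)

/-- second matroid -/
noncomputable def M2 (hm : 0 < m) (𝒥 : Finset (Finset (Fin (2 * m)))) (h𝒥 : 𝒥 ⊆ mid m) :
    Matroid (Fin (8 * m)) :=
  spMatroid g2 (2 * m) (fam 𝒥) (fam_ne hm 𝒥) (fam_card 𝒥) (fam_inter h𝒥)

theorem M1_indep (I : Finset (Fin (8 * m))) :
    (M1 m).Indep (I : Set _) ↔ ∀ x ∈ I, ∀ y ∈ I, g1 x = g1 y → x = y := by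
  unfold M1
  rw [spMatroid_indep]
  unfold spIndep
  have h0 : I.filter (fun x => g1 x = none) = ∅ := by
    apply filter_eq_empty_iff.2
    intro x _ h
    simp [g1] at h
  rw [h0]
  constructor
  · rintro ⟨h, -, -⟩ x hx y hy hxy
    exact h x hx y hy hxy (by simp [g1])
  · intro h
    exact ⟨fun x hx y hy hxy _ => h x hx y hy hxy, by simp, by simp⟩

theorem M2_indep (hm : 0 < m) (𝒥 : Finset (Finset (Fin (2 * m)))) (h𝒥 : 𝒥 ⊆ mid m)
    (I : Finset (Fin (8 * m))) :
    (M2 hm 𝒥 h𝒥).Indep (I : Set _) ↔ spIndep g2 (2 * m) (fam 𝒥) I := by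
  unfold M2
  rw [spMatroid_indep]

/-- the common bases: type `0` and `2` on `I`, type `1` and `3` off `I` -/
def bas (I : Finset (Fin (2 * m))) : Finset (Fin (8 * m)) :=
  univ.filter (fun x => ((ty x = 0 ∨ ty x = 2) ∧ ix x ∈ I) ∨ ((ty x = 1 ∨ ty x = 3) ∧ ix x ∉ I))

theorem mem_bas {I : Finset (Fin (2 * m))} {x : Fin (8 * m)} :
    x ∈ bas I ↔ ((ty x = 0 ∨ ty x = 2) ∧ ix x ∈ I) ∨ ((ty x = 1 ∨ ty x = 3) ∧ ix x ∉ I) := by
  simp [bas]

theorem fin4 (t : Fin 4) : t = 0 ∨ t = 1 ∨ t = 2 ∨ t = 3 := by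
  fin_cases t <;> simp

theorem g1_eq {x y : Fin (8 * m)} :
    g1 x = g1 y ↔ ix x = ix y ∧ ((ty x = 0 ∨ ty x = 3) ↔ (ty y = 0 ∨ ty y = 3)) := by
  unfold g1
  rw [Option.some.injEq, Prod.mk.injEq, decide_eq_decide]

theorem bas_base1 (I : Finset (Fin (2 * m))) : (M1 m).IsBase (bas I : Set _) := by
  rw [isBase_iff_finset]
  constructor
  · rw [M1_indep]
    intro x hx y hy hxy
    rw [g1_eq] at hxy
    rw [mem_bas] at hx hy
    obtain ⟨h1, h2⟩ := hxy
    apply ext_ix_ty h1
    rw [h1] at hx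
    by_cases hi : ix y ∈ I
    · simp only [hi, and_true, not_true_eq_false, and_false, or_false] at hx hy
      rcases hx with hx | hx <;> rcases hy with hy | hy <;> simp_all
    · simp only [hi, and_true, not_false_eq_true, and_false, false_or] at hx hy
      rcases hx with hx | hx <;> rcases hy with hy | hy <;> simp_all
  · intro x hx hind
    rw [M1_indep] at hind
    -- the element of `bas I` in the same class
    have key : ∃ t : Fin 4, el (ix x) t ∈ bas I ∧ ((t = 0 ∨ t = 3) ↔ (ty x = 0 ∨ ty x = 3)) := by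
      by_cases hi : ix x ∈ I
      · rcases fin4 (ty x) with h | h | h | h
        · exact ⟨0, by simp [mem_bas, hi], by simp [h]⟩
        · exact ⟨2, by simp [mem_bas, hi], by simp [h]⟩
        · exact ⟨2, by simp [mem_bas, hi], by simp [h]⟩
        · exact ⟨0, by simp [mem_bas, hi], by simp [h]⟩
      · rcases fin4 (ty x) with h | h | h | h
        · exact ⟨3, by simp [mem_bas, hi], by simp [h]⟩
        · exact ⟨1, by simp [mem_bas, hi], by simp [h]⟩
        · exact ⟨1, by simp [mem_bas, hi], by simp [h]⟩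
        · exact ⟨3, by simp [mem_bas, hi], by simp [h]⟩
    obtain ⟨t, ht, ht2⟩ := key
    have := hind (el (ix x) t) (mem_insert_of_mem ht) x (mem_insert_self _ _)
      (by rw [g1_eq]; simp only [ix_el, ty_el, true_and]; exact ht2)
    rw [this] at ht
    exact hx ht

theorem g2_none {x : Fin (8 * m)} : g2 x = none ↔ (ty x = 2 ∨ ty x = 3) := by
  unfold g2
  rcases fin4 (ty x) with h | h | h | h <;> simp [h]

theorem bas_filter (I : Finset (Fin (2 * m))) :
    (bas I).filter (fun x => g2 x = none) = hyp I := by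
  ext x
  rw [mem_filter, mem_bas, mem_hyp, g2_none]
  rcases fin4 (ty x) with h | h | h | h <;> simp [h]

theorem bas_base2 (hm : 0 < m) (𝒥 : Finset (Finset (Fin (2 * m)))) (h𝒥 : 𝒥 ⊆ mid m)
    (I : Finset (Fin (2 * m))) (hI : I ∉ 𝒥) : (M2 hm 𝒥 h𝒥).IsBase (bas I : Set _) := by
  rw [isBase_iff_finset]
  constructor
  · rw [M2_indep]
    refine ⟨?_, ?_, ?_⟩
    · intro x hx y hy hxy hne
      rw [Ne, g2_none] at hne
      have hney : ¬ (ty y = 2 ∨ ty y = 3) := by rw [← g2_none, ← hxy, g2_none]; exact hne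
      have hx01 : ty x = 0 ∨ ty x = 1 := by
        rcases fin4 (ty x) with h | h | h | h <;> simp [h] at hne ⊢
      have hy01 : ty y = 0 ∨ ty y = 1 := by
        rcases fin4 (ty y) with h | h | h | h <;> simp [h] at hney ⊢
      unfold g2 at hxy
      rw [if_pos hx01, if_pos hy01] at hxy
      have h1 : ix x = ix y := by simpa using hxy
      apply ext_ix_ty h1
      rw [mem_bas] at hx hy
      rw [h1] at hx
      by_cases hi : ix y ∈ I
      · rcases hx01 with h | h <;> rcases hy01 with h' | h' <;> simp [h, h', hi] at hx hy ⊢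
      · rcases hx01 with h | h <;> rcases hy01 with h' | h' <;> simp [h, h', hi] at hx hy ⊢
    · rw [bas_filter, card_hyp]
    · rw [bas_filter, mem_fam]; exact hI
  · intro x hx hind
    rw [M2_indep] at hind
    obtain ⟨h1, h2, h3⟩ := hind
    by_cases hx2 : g2 x = none
    · rw [filter_insert, if_pos hx2, bas_filter, card_insert_of_notMem, card_hyp] at h2
      · omega
      · intro h
        rw [← bas_filter, mem_filter] at h
        exact hx h.1
    · have hx01 : ty x = 0 ∨ ty x = 1 := by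
        rw [g2_none] at hx2
        rcases fin4 (ty x) with h | h | h | h <;> simp [h] at hx2 ⊢
      have key : ∃ t : Fin 4, (t = 0 ∨ t = 1) ∧ el (ix x) t ∈ bas I := by
        by_cases hi : ix x ∈ I
        · exact ⟨0, by simp, by simp [mem_bas, hi]⟩
        · exact ⟨1, by simp, by simp [mem_bas, hi]⟩
      obtain ⟨t, ht, ht2⟩ := key
      have := h1 (el (ix x) t) (mem_insert_of_mem ht2) x (mem_insert_self _ _)
        (by unfold g2; simp only [ty_el, ix_el]; rw [if_pos ht, if_pos hx01])
        (by unfold g2; simp only [ty_el, ix_el]; rw [if_pos ht]; simp)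
      rw [this] at ht2
      exact hx ht2

/-- a common base of `M1` and `M2` is one of the sets `bas I` -/
theorem base_structure (hm : 0 < m) (𝒥 : Finset (Finset (Fin (2 * m)))) (h𝒥 : 𝒥 ⊆ mid m)
    (B : Finset (Fin (8 * m))) (h1 : (M1 m).IsBase (B : Set _))
    (h2 : (M2 hm 𝒥 h𝒥).IsBase (B : Set _)) :
    ∃ I : Finset (Fin (2 * m)), I ∉ 𝒥 ∧ B = bas I := by
  rw [isBase_iff_finset] at h1 h2
  obtain ⟨h1i, h1m⟩ := h1
  obtain ⟨h2i, h2m⟩ := h2
  rw [M1_indep] at h1i
  rw [M2_indep] at h2i
  -- exactly one of types 0, 3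
  have a03 : ∀ i, el i 0 ∈ B ∨ el i 3 ∈ B := by
    intro i
    by_contra hcon
    push Not at hcon
    apply h1m (el i 0) hcon.1
    rw [M1_indep]
    intro x hx y hy hxy
    rw [g1_eq] at hxy
    rcases mem_insert.1 hx with hx | hx <;> rcases mem_insert.1 hy with hy | hy
    · rw [hx, hy]
    · exfalso
      rw [hx] at hxy
      simp only [ix_el, ty_el, true_or, true_iff] at hxy
      rcases hxy with ⟨h, h' | h'⟩
      · apply hcon.1; rw [h, ← h', el_ix_ty]; exact hy
      · apply hcon.2; rw [h, ← h', el_ix_ty]; exact hy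
    · exfalso
      rw [hy] at hxy
      simp only [ix_el, ty_el, true_or, iff_true] at hxy
      rcases hxy with ⟨h, h' | h'⟩
      · apply hcon.1; rw [← h, ← h', el_ix_ty]; exact hx
      · apply hcon.2; rw [← h, ← h', el_ix_ty]; exact hx
    · exact h1i x hx y hy (g1_eq.2 hxy)
  have a12 : ∀ i, el i 1 ∈ B ∨ el i 2 ∈ B := by
    intro i
    by_contra hcon
    push Not at hcon
    apply h1m (el i 1) hcon.1
    rw [M1_indep]
    intro x hx y hy hxy
    rw [g1_eq] at hxy
    rcases mem_insert.1 hx with hx | hx <;> rcases mem_insert.1 hy with hy | hy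
    · rw [hx, hy]
    · exfalso
      rw [hx] at hxy
      rcases hxy with ⟨h, h'⟩
      simp only [ix_el] at h
      rcases fin4 (ty y) with h'' | h'' | h'' | h''
      · simp [h''] at h'
      · apply hcon.1; rw [h, ← h'', el_ix_ty]; exact hy
      · apply hcon.2; rw [h, ← h'', el_ix_ty]; exact hy
      · simp [h''] at h'
    · exfalso
      rw [hy] at hxy
      rcases hxy with ⟨h, h'⟩
      simp only [ix_el] at h
      rcases fin4 (ty x) with h'' | h'' | h'' | h''
      · simp [h''] at h'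
      · apply hcon.1; rw [← h, ← h'', el_ix_ty]; exact hx
      · apply hcon.2; rw [← h, ← h'', el_ix_ty]; exact hx
      · simp [h''] at h'
    · exact h1i x hx y hy (g1_eq.2 hxy)
  have n03 : ∀ i, el i 0 ∈ B → el i 3 ∈ B → False := by
    intro i h0 h3
    have := h1i _ h0 _ h3 (by rw [g1_eq]; simp)
    have := congrArg ty this
    simp at this
  have n12 : ∀ i, el i 1 ∈ B → el i 2 ∈ B → False := by
    intro i h0 h3
    have := h1i _ h0 _ h3 (by rw [g1_eq]; simp)
    have := congrArg ty this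
    simp at this
  have n01 : ∀ i, el i 0 ∈ B → el i 1 ∈ B → False := by
    intro i h0 h3
    have := h2i.1 _ h0 _ h3 (by simp [g2]) (by simp [g2])
    have := congrArg ty this
    simp at this
  have a01 : ∀ i, el i 0 ∈ B ∨ el i 1 ∈ B := by
    intro i
    by_contra hcon
    push Not at hcon
    apply h2m (el i 0) hcon.1
    rw [M2_indep]
    have hfil : (insert (el i 0) B).filter (fun x => g2 x = none)
        = B.filter (fun x => g2 x = none) := by
      rw [filter_insert, if_neg]
      simp [g2]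
    refine ⟨?_, ?_, ?_⟩
    · intro x hx y hy hxy hne
      have hx01 : ty x = 0 ∨ ty x = 1 := by
        rw [Ne, g2_none] at hne
        rcases fin4 (ty x) with h | h | h | h <;> simp [h] at hne ⊢
      have hy01 : ty y = 0 ∨ ty y = 1 := by
        rw [hxy, Ne, g2_none] at hne
        rcases fin4 (ty y) with h | h | h | h <;> simp [h] at hne ⊢
      have hix : ix x = ix y := by
        unfold g2 at hxy
        rw [if_pos hx01, if_pos hy01] at hxy
        simpa using hxy
      rcases mem_insert.1 hx with hx | hx <;> rcases mem_insert.1 hy with hy | hy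
      · rw [hx, hy]
      · exfalso
        rw [hx] at hix
        simp only [ix_el] at hix
        rcases hy01 with h' | h'
        · apply hcon.1; rw [hix, ← h', el_ix_ty]; exact hy
        · apply hcon.2; rw [hix, ← h', el_ix_ty]; exact hy
      · exfalso
        rw [hy] at hix
        simp only [ix_el] at hix
        rcases hx01 with h' | h'
        · apply hcon.1; rw [← hix, ← h', el_ix_ty]; exact hx
        · apply hcon.2; rw [← hix, ← h', el_ix_ty]; exact hx
      · exact h2i.1 x hx y hy hxy hne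
    · rw [hfil]; exact h2i.2.1
    · rw [hfil]; exact h2i.2.2
  set I : Finset (Fin (2 * m)) := univ.filter (fun i => el i 0 ∈ B) with hI
  have hB : B = bas I := by
    ext x
    rw [mem_bas, hI, mem_filter]
    simp only [mem_univ, true_and]
    have e := el_ix_ty x
    have b03 := a03 (ix x)
    have b12 := a12 (ix x)
    have b01 := a01 (ix x)
    have c03 := n03 (ix x)
    have c12 := n12 (ix x)
    have c01 := n01 (ix x)
    rcases fin4 (ty x) with h | h | h | h
    · rw [h] at e
      rw [h]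
      nth_rewrite 1 [← e]
      simp
    · rw [h] at e
      rw [h]
      nth_rewrite 1 [← e]
      simp
      tauto
    · rw [h] at e
      rw [h]
      nth_rewrite 1 [← e]
      simp
      tauto
    · rw [h] at e
      rw [h]
      nth_rewrite 1 [← e]
      simp
      tauto
  refine ⟨I, ?_, hB⟩
  intro hIJ
  apply h2i.2.2
  rw [hB, bas_filter, mem_fam]
  exact hIJ

end Pool.Agent.H586R2.KCB
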