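import Mathlib
import Pool.Agent.H586R2.KCB.Inst

set_option autoImplicit false
set_option linter.unusedSectionVars false

namespace Pool.Agent.H586R2.KCB

open Finset

variable {m : ℕ}

/-- weight of a type -/
def wt (t : Fin 4) : ℚ := if t = 0 then 4 else if t = 2 then 1 else 3

/-- the weights -/
def wgt (m : ℕ) (x : Fin (8 * m)) : ℚ := wt (ty x)

theorem wt_eq (t : Fin 4) : wt t = 3 + (if t = 0 then 1 else 0) - 2 * (if t = 2 then 1 else 0) := by
  fin_cases t <;> simp [wt] <;> norm_num

theorem sum_wgt (X : Finset (Fin (8 * m))) :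
    ∑ x ∈ X, wgt m x = 3 * (X.card : ℚ) + ((X.filter (fun x => ty x = 0)).card : ℚ)
      - 2 * ((X.filter (fun x => ty x = 2)).card : ℚ) := by
  have : ∀ x ∈ X, wgt m x = 3 + (if ty x = 0 then 1 else 0) - 2 * (if ty x = 2 then 1 else 0) :=
    fun x _ => wt_eq _
  rw [sum_congr rfl this, sum_sub_distrib, sum_add_distrib, ← mul_sum, sum_boole, sum_boole]
  simp [mul_comm]

theorem card_split (X : Finset (Fin (8 * m))) :
    X.card = (X.filter (fun x => ty x = 0)).card + (X.filter (fun x => ty x = 1)).card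
      + (X.filter (fun x => ty x = 2)).card + (X.filter (fun x => ty x = 3)).card := by
  rw [card_eq_sum_card_fiberwise (f := ty) (t := univ) (fun x _ => by simp), Fin.sum_univ_four]

theorem card_bas_in (I : Finset (Fin (2 * m))) (t : Fin 4) (ht : t = 0 ∨ t = 2) :
    ((bas I).filter (fun x => ty x = t)).card = I.card := by
  have : (bas I).filter (fun x => ty x = t) = I.image (fun i => el i t) := by
    ext x
    rw [mem_filter, mem_bas, mem_image]
    constructor
    · rintro ⟨h, rfl⟩
      rcases h with ⟨-, h⟩ | ⟨h, -⟩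
      · exact ⟨ix x, h, el_ix_ty x⟩
      · exfalso
        rcases ht with h' | h' <;> rw [h'] at h <;> revert h <;> decide
    · rintro ⟨i, hi, rfl⟩
      simp [hi, ht]
  rw [this, card_image_of_injective]
  intro i j hij
  simpa using congrArg ix hij

theorem card_bas_out (I : Finset (Fin (2 * m))) (t : Fin 4) (ht : t = 1 ∨ t = 3) :
    ((bas I).filter (fun x => ty x = t)).card = 2 * m - I.card := by
  have : (bas I).filter (fun x => ty x = t) = Iᶜ.image (fun i => el i t) := by
    ext x
    rw [mem_filter, mem_bas, mem_image]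
    constructor
    · rintro ⟨h, rfl⟩
      rcases h with ⟨h, -⟩ | ⟨-, h⟩
      · exfalso
        rcases ht with h' | h' <;> rw [h'] at h <;> revert h <;> decide
      · exact ⟨ix x, by simpa using h, el_ix_ty x⟩
    · rintro ⟨i, hi, rfl⟩
      rw [mem_compl] at hi
      simp [hi, ht]
  rw [this, card_image_of_injective, card_compl, Fintype.card_fin]
  intro i j hij
  simpa using congrArg ix hij

theorem card_le_two_mul (I : Finset (Fin (2 * m))) : I.card ≤ 2 * m := by
  simpa using card_le_univ I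

theorem value_upper (I : Finset (Fin (2 * m))) (hI : I.card ≠ m) (X : Finset (Fin (8 * m)))
    (hX : X ⊆ bas I) (hc : X.card = 3 * m) : ∑ x ∈ X, wgt m x ≤ 10 * m - 1 := by
  have hsub : ∀ t, (X.filter (fun x => ty x = t)).card ≤ ((bas I).filter (fun x => ty x = t)).card :=
    fun t => card_le_card (filter_subset_filter _ hX)
  have h0 := hsub 0
  have h1 := hsub 1
  have h2 := hsub 2
  have h3 := hsub 3
  rw [card_bas_in I 0 (by simp)] at h0
  rw [card_bas_out I 1 (by simp)] at h1
  rw [card_bas_in I 2 (by simp)] at h2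
  rw [card_bas_out I 3 (by simp)] at h3
  have hs := card_split X
  have hI2 := card_le_two_mul I
  rw [sum_wgt, hc]
  have key : 3 * (3 * m) + (X.filter (fun x => ty x = 0)).card + 1 ≤
      10 * m + 2 * (X.filter (fun x => ty x = 2)).card := by
    omega
  have key' : (3 * (3 * m) + (X.filter (fun x => ty x = 0)).card + 1 : ℚ) ≤
      10 * m + 2 * (X.filter (fun x => ty x = 2)).card := by
    exact_mod_cast key
  push_cast
  linarith

theorem value_lower (J : Finset (Fin (2 * m))) (hJ : J.card = m) :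
    ((bas J).filter (fun x => ty x ≠ 2)).card = 3 * m ∧
      ∑ x ∈ (bas J).filter (fun x => ty x ≠ 2), wgt m x = 10 * m := by
  have f : ∀ t : Fin 4, t ≠ 2 → ((bas J).filter (fun x => ty x ≠ 2)).filter (fun x => ty x = t)
      = (bas J).filter (fun x => ty x = t) := by
    intro t ht
    rw [filter_filter]
    apply filter_congr
    intro x _
    constructor
    · rintro ⟨_, h⟩; exact h
    · intro h; exact ⟨by rw [h]; exact ht, h⟩
  have f2 : ((bas J).filter (fun x => ty x ≠ 2)).filter (fun x => ty x = 2) = ∅ := by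
    rw [filter_filter]
    apply filter_eq_empty_iff.2
    intro x _ h
    exact h.1 h.2
  have hc : ((bas J).filter (fun x => ty x ≠ 2)).card = 3 * m := by
    rw [card_split, f 0 (by decide), f 1 (by decide), f2, f 3 (by decide),
      card_bas_in J 0 (by simp), card_bas_out J 1 (by simp), card_bas_out J 3 (by simp), hJ]
    simp
    omega
  refine ⟨hc, ?_⟩
  rw [sum_wgt, hc, f 0 (by decide), f2, card_bas_in J 0 (by simp), hJ]
  push_cast
  simp
  ring

theorem card_bas (I : Finset (Fin (2 * m))) : (bas I).card = 4 * m := by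
  rw [card_split, card_bas_in I 0 (by simp), card_bas_out I 1 (by simp), card_bas_in I 2 (by simp),
    card_bas_out I 3 (by simp)]
  have := card_le_two_mul I
  omega

theorem wgt_values (x : Fin (8 * m)) : wgt m x = 1 ∨ wgt m x = 3 ∨ wgt m x = 4 := by
  unfold wgt wt
  split_ifs <;> simp

theorem valid (hm : 0 < m) (𝒥 : Finset (Finset (Fin (2 * m)))) (h𝒥 : 𝒥 ⊆ mid m) :
    ValidInstance (M1 m) (M2 hm 𝒥 h𝒥) (wgt m) (3 * m) := by
  refine ⟨rfl, rfl, ?_, bas ∅, bas_base1 _, bas_base2 hm 𝒥 h𝒥 _ ?_, ?_⟩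
  · intro e
    rcases wgt_values e with h | h | h <;> rw [h] <;> norm_num
  · intro h
    have := mem_mid.1 (h𝒥 h)
    simp at this
    omega
  · rw [card_bas]; omega

theorem indep_differ (hm : 0 < m) (J : Finset (Fin (2 * m))) (X : Finset (Fin (8 * m)))
    (h : ¬ ((M2 hm ((mid m).erase J) (erase_subset _ _)).Indep (X : Set (Fin (8 * m))) ↔
      (M2 hm (mid m) Subset.rfl).Indep (X : Set (Fin (8 * m))))) :
    X.filter (fun x => g2 x = none) = hyp J := by
  rw [M2_indep, M2_indep] at h
  unfold spIndep at h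
  by_contra hne
  apply h
  have : X.filter (fun x => g2 x = none) ∉ fam ((mid m).erase J) ↔
      X.filter (fun x => g2 x = none) ∉ fam (mid m) := by
    constructor
    · intro h1 h2
      unfold fam at h2
      rw [mem_image] at h2
      obtain ⟨I, hI, hI2⟩ := h2
      apply h1
      rw [← hI2, mem_fam, mem_erase]
      refine ⟨?_, hI⟩
      rintro rfl
      exact hne hI2.symm
    · intro h1 h2
      unfold fam at h2
      rw [mem_image] at h2
      obtain ⟨I, hI, hI2⟩ := h2
      apply h1
      rw [← hI2, mem_fam]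
      exact mem_of_mem_erase hI
  rw [this]

/-- the exponential lower bound -/
theorem lower_bound (A : OracleAlgorithm) (hA : Solves A) (m : ℕ) (hm : 0 < m) :
    ∃ (M₁ M₂ : Matroid (Fin (8 * m))) (w : Fin (8 * m) → ℚ) (k : ℕ),
      ValidInstance M₁ M₂ w k ∧ (∀ e, w e = 1 ∨ w e = 3 ∨ w e = 4) ∧
      (2 * m).choose m ≤ (A (8 * m) w k).calls M₁ M₂ := by
  refine ⟨M1 m, M2 hm (mid m) Subset.rfl, wgt m, 3 * m, valid hm _ _, wgt_values, ?_⟩
  by_contra hlt
  push Not at hlt
  have hcard : (mid m).card = (2 * m).choose m := by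
    unfold mid; rw [card_powersetCard, card_univ, Fintype.card_fin]
  rw [← hcard] at hlt
  obtain ⟨J, hJ, hrun⟩ := adversary (M1 m) (M2 hm (mid m) Subset.rfl)
    (fun J => M2 hm ((mid m).erase J) (erase_subset _ _)) (A (8 * m) (wgt m) (3 * m)) (mid m)
    (by
      intro X a _ b _ ha hb
      have h1 := indep_differ hm a X ha
      have h2 := indep_differ hm b X hb
      exact hyp_injective (h1.symm.trans h2)) hlt
  have hopt0 := hA _ _ _ _ _ (valid hm (mid m) Subset.rfl)
  have hoptJ := hA _ _ _ _ _ (valid hm ((mid m).erase J) (erase_subset _ _))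
  rw [hrun] at hoptJ
  obtain ⟨⟨hXc, B, hB1, hB2, hXB⟩, -⟩ := hopt0
  obtain ⟨I, hI, rfl⟩ := base_structure hm _ _ B hB1 hB2
  have hIm : I.card ≠ m := fun h => hI (mem_mid.2 h)
  have hup := value_upper I hIm _ hXB hXc
  obtain ⟨hl1, hl2⟩ := value_lower J (mem_mid.1 hJ)
  have := hoptJ.2 ((bas J).filter (fun x => ty x ≠ 2))
    ⟨hl1, bas J, bas_base1 J, bas_base2 hm _ _ J (by simp), filter_subset _ _⟩
  rw [hl2] at this
  linarith

theorem bits_le (w : Fin (8 * m) → ℚ) (hw : ∀ e, w e = 1 ∨ w e = 3 ∨ w e = 4) :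
    bitSize w ≤ 32 * m := by
  unfold bitSize
  have h : ∀ e ∈ (univ : Finset (Fin (8 * m))), (w e).num.natAbs.size + (w e).den.size ≤ 4 := by
    intro e _
    have h1 : Nat.size 1 = 1 := by decide
    have h3 : Nat.size 3 = 2 := by decide
    have h4 : Nat.size 4 = 3 := by decide
    rcases hw e with h | h | h <;> rw [h]
    · simp [h1]
    · simp [h1, h3]
    · simp [h1, h4]
  have := sum_le_card_nsmul _ _ _ h
  simp at this
  omega

theorem no_polynomial (A : OracleAlgorithm) (hA : Solves A) : ¬ PolynomiallyManyCalls A := by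
  rintro ⟨c, hc⟩
  -- find m with `2 m c (41 m)^c < 4^m`
  have hlim : Filter.Tendsto (fun m : ℕ => (2 * c * 41 ^ c : ℝ) * ((m : ℝ) ^ (c + 1) / 4 ^ m))
      Filter.atTop (nhds 0) := by
    have := (tendsto_pow_const_div_const_pow_of_one_lt (c + 1) (r := 4) (by norm_num)).const_mul
      (2 * c * 41 ^ c : ℝ)
    simpa using this
  have hev := hlim.eventually (gt_mem_nhds (show (0 : ℝ) < 1 by norm_num))
  obtain ⟨m, hm1, hm⟩ := (hev.and (Filter.eventually_ge_atTop 1)).exists
  obtain ⟨M₁, M₂, w, k, hv, hw, hcalls⟩ := lower_bound A hA m hm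
  have h1 := hc _ _ _ _ _ hv
  have h2 := bits_le w hw
  have h3 : c * (8 * m + bitSize w + 1) ^ c ≤ c * (41 * m) ^ c := by
    apply Nat.mul_le_mul_left
    apply Nat.pow_le_pow_left
    omega
  have h4 := Nat.four_pow_le_two_mul_self_mul_centralBinom m hm
  rw [Nat.centralBinom_eq_two_mul_choose] at h4
  have h5 : 4 ^ m ≤ 2 * m * (c * (41 * m) ^ c) :=
    h4.trans (Nat.mul_le_mul_left _ (hcalls.trans (h1.trans h3)))
  have h6 : (4 : ℝ) ^ m ≤ 2 * m * (c * (41 * m) ^ c) := by exact_mod_cast h5
  have h7 : (0 : ℝ) < 4 ^ m := by positivity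
  have h8 : (2 * c * 41 ^ c : ℝ) * ((m : ℝ) ^ (c + 1) / 4 ^ m) =
      (2 * m * (c * (41 * m) ^ c)) / 4 ^ m := by
    rw [mul_pow]; ring
  rw [h8, div_lt_one h7] at hm1
  linarith

end Pool.Agent.H586R2.KCB
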